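import Pool.Agent.H68.Cactus

set_option autoImplicit false

namespace Pool.Agent.Results.MP_fc7805_al.CactusRank

open Pool.Agent.H68.CactusDefs

theorem result : ¬ ∀ n : ℕ, 2 ≤ n → ∀ k : ℕ,
    ((∃ H : Subgroup (J n), Nonempty (H ≃* Multiplicative (Fin k → ℤ))) ↔ k ≤ n / 3) := by
  intro h
  obtain ⟨f, hf⟩ := Pool.Agent.H68.Cactus.main
  have := (h 5 (by norm_num) 2).1 ⟨f.range, ⟨(MonoidHom.ofInjective hf).symm⟩⟩
  omega

end Pool.Agent.Results.MP_fc7805_al.CactusRank
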